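import Mathlib

/-!
Trees of intervals of two types and `C^1` maps: statements of the abstract parts.
-/

set_option autoImplicit false

open Set

namespace Pool.Agent.W811.Nd

/-- an interval `[u,v]` with a type (`true` : 7 children, `false` : 5 children) -/
abbrev Nod := ℝ × ℝ × Bool

/-- the interval of a node -/
def seg (B : Nod) : Set ℝ := Set.Icc B.1 B.2.1

/-- the length of a node -/
def len (B : Nod) : ℝ := B.2.1 - B.1

/-- the elements of `P (n+1)` inside the node `B` -/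
noncomputable def kids (P : ℕ → Finset Nod) (n : ℕ) (B : Nod) : Finset Nod := by
  classical exact (P (n + 1)).filter (fun C => seg C ⊆ seg B)

/-- the number of nodes of type `true` -/
def cnt (K : Finset Nod) : ℕ := (K.filter (fun C => C.2.2 = true)).card

/-- A system of nested partitions of `S` by nodes of two types: a node of type `true` has 7
children, 4 of them of type `true`, a node of type `false` has 5 children, 3 of them of type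
`true`; the distances between different children of `B` are at least `|B|/25`, the children have
length at most `3|B|/5000`. -/
structure Sys (S : Set ℝ) (P : ℕ → Finset Nod) : Prop where
  lt : ∀ n, ∀ B ∈ P n, B.1 < B.2.1
  disj : ∀ n, ∀ B ∈ P n, ∀ B' ∈ P n, B ≠ B' → Disjoint (seg B) (seg B')
  cover : ∀ n, ∀ x ∈ S, ∃ B ∈ P n, x ∈ seg B
  meet : ∀ n, ∀ B ∈ P n, ∃ x ∈ S, x ∈ seg B
  par : ∀ n, ∀ C ∈ P (n + 1), ∃ B ∈ P n, seg C ⊆ seg B
  card : ∀ n, ∀ B ∈ P n, (kids P n B).card = if B.2.2 = true then 7 else 5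
  cntII : ∀ n, ∀ B ∈ P n, cnt (kids P n B) = if B.2.2 = true then 4 else 3
  gap : ∀ n, ∀ B ∈ P n, ∀ C ∈ kids P n B, ∀ C' ∈ kids P n B, C ≠ C' →
    ∀ x ∈ seg C, ∀ y ∈ seg C', len B / 25 ≤ |x - y|
  small : ∀ n, ∀ B ∈ P n, ∀ C ∈ kids P n B, len C ≤ 3 / 5000 * len B

/-- the map `f` with inverse `g` from `S` to `S'` is almost affine at small scales, with factor
`ρ x` at the point `x` -/
structure Aff (S : Set ℝ) (f g : ℝ → ℝ) (ε r M : ℝ) (ρ : ℝ → ℝ) : Prop where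
  r0 : 0 < r
  M0 : 0 < M
  hρ : ∀ x ∈ S, 0 < ρ x ∧ ρ x ≤ M ∧ 1 ≤ M * ρ x
  hf : ∀ x₀ ∈ S, ∀ x y, |x - x₀| ≤ r → |y - x₀| ≤ r →
    (1 - ε) * ρ x₀ * |x - y| ≤ |f x - f y| ∧ |f x - f y| ≤ (1 + ε) * ρ x₀ * |x - y|
  hg : ∀ x₀ ∈ S, ∀ x y, |x - f x₀| ≤ r → |y - f x₀| ≤ r →
    (1 - ε) * |x - y| ≤ ρ x₀ * |g x - g y| ∧ ρ x₀ * |g x - g y| ≤ (1 + ε) * |x - y|

/-- (CAL) a `C^1` diffeomorphism is almost affine at small scales -/
def TCal : Prop := ∀ (S U V : Set ℝ) (f g : ℝ → ℝ), IsCompact S → IsOpen U → IsOpen V → S ⊆ U →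
  MapsTo f U V → MapsTo g V U → (∀ x ∈ U, g (f x) = x) → (∀ y ∈ V, f (g y) = y) →
  ContDiffOn ℝ 1 f U → ContDiffOn ℝ 1 g V → ∀ ε : ℝ, 0 < ε → ε < 1 →
  ∃ (r M : ℝ) (ρ : ℝ → ℝ), Aff S f g ε r M ρ

/-- (MATCH) small nodes are mapped to nodes of the same type -/
def TMatch : Prop := ∀ (S S' : Set ℝ) (P P' : ℕ → Finset Nod) (f g : ℝ → ℝ),
  Sys S P → Sys S' P' → (∀ x ∈ S, g (f x) = x) → f '' S = S' →
  (∃ (r M : ℝ) (ρ : ℝ → ℝ), Aff S f g (1 / 100) r M ρ) →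
  ∃ N, ∀ B ∈ P N, ∃ k, ∃ D ∈ P' k, f '' (S ∩ seg B) = S' ∩ seg D ∧ D.2.2 = B.2.2

/-- (COUNT) the number of nodes of type `true` modulo 3 -/
def TCount : Prop := ∀ (S S' : Set ℝ) (P P' : ℕ → Finset Nod) (f : ℝ → ℝ),
  Sys S P → Sys S' P' → InjOn f S → f '' S = S' →
  (∃ N, ∀ B ∈ P N, ∃ k, ∃ D ∈ P' k, f '' (S ∩ seg B) = S' ∩ seg D ∧ D.2.2 = B.2.2) →
  cnt (P 0) % 3 = cnt (P' 0) % 3

/-- the conclusion of the abstract part -/
def TAbs : Prop := ∀ (S S' : Set ℝ) (P P' : ℕ → Finset Nod), IsCompact S → Sys S P → Sys S' P' →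
  ∀ (U V : Set ℝ) (f g : ℝ → ℝ), IsOpen U → IsOpen V → S ⊆ U →
  MapsTo f U V → MapsTo g V U → (∀ x ∈ U, g (f x) = x) → (∀ y ∈ V, f (g y) = y) →
  ContDiffOn ℝ 1 f U → ContDiffOn ℝ 1 g V → f '' S = S' →
  cnt (P 0) % 3 = cnt (P' 0) % 3

theorem tAbs (h1 : TCal) (h2 : TMatch) (h3 : TCount) : TAbs := by
  intro S S' P P' hS hP hP' U V f g hU hV hSU hf hg hgf hfg hcf hcg hi
  have hc := h1 S U V f g hS hU hV hSU hf hg hgf hfg hcf hcg (1 / 100) (by norm_num) (by norm_num)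
  have hgf' : ∀ x ∈ S, g (f x) = x := fun x hx => hgf x (hSU hx)
  have hm := h2 S S' P P' f g hP hP' hgf' hi hc
  exact h3 S S' P P' f hP hP' (fun x hx y hy h => by rw [← hgf' x hx, ← hgf' y hy, h]) hi hm

/-- `K` is a family of children of the node `B` (with stages) -/
structure Kids (S : Set ℝ) (Nd : ℕ → Nod → Prop) (m : ℕ) (B : Nod) (K : Finset (ℕ × Nod)) :
    Prop where
  nd : ∀ C ∈ K, m < C.1 ∧ Nd C.1 C.2
  sub : ∀ C ∈ K, seg C.2 ⊆ seg B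
  card1 : (K.filter (fun C => C.2.2.2 = true)).card = if B.2.2 = true then 4 else 3
  card2 : (K.filter (fun C => C.2.2.2 = false)).card = if B.2.2 = true then 3 else 2
  gap : ∀ C ∈ K, ∀ C' ∈ K, C ≠ C' → ∀ x ∈ seg C.2, ∀ y ∈ seg C'.2, len B / 25 ≤ |x - y|
  small : ∀ C ∈ K, len C.2 ≤ 3 / 5000 * len B
  cover : ∀ x ∈ S, x ∈ seg B → ∃ C ∈ K, x ∈ seg C.2

/-- (TREE) construction of a system of partitions from a node predicate -/
def TTree : Prop := ∀ (S : Set ℝ) (Nd : ℕ → Nod → Prop),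
  (∀ m B, Nd m B → B.1 < B.2.1 ∧ ∃ x ∈ S, x ∈ seg B) →
  (∀ m B, Nd m B → ∃ K : Finset (ℕ × Nod), Kids S Nd m B K) →
  ∀ K0 : Finset (ℕ × Nod), (∀ C ∈ K0, Nd C.1 C.2) →
  (∀ C ∈ K0, ∀ C' ∈ K0, C ≠ C' → Disjoint (seg C.2) (seg C'.2)) →
  (∀ x ∈ S, ∃ C ∈ K0, x ∈ seg C.2) →
  ∃ P, Sys S P ∧ cnt (P 0) = (K0.filter (fun C => C.2.2.2 = true)).card

end Pool.Agent.W811.Nd
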