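import Mathlib
import Pool.Agent.W811.Nd.Abs
import Pool.Agent.W811.Stu.Stmts3

/-!
Nodes (bands) of Sturmian spectra with digits 3 at large coupling: statements.
-/

set_option autoImplicit false

open Set Pool.Agent.W811.Stu

namespace Pool.Agent.W811.Nd

/-- a node of stage `m` : `|y_m| ≤ 1` on the interval, with values `∓1` at the ends; type `false` :
`|z_m| ≤ 1`; type `true` : `|z_m|` is close to `c` and `|2 y_m z_m - x_m| ≤ 1` -/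
structure IsNode (lam : ℝ) (d : ℕ → ℕ) (m : ℕ) (B : Nod) : Prop where
  lt : B.1 < B.2.1
  y1 : ∀ e ∈ seg B, |(orb d (lin lam e) m).y| ≤ 1
  ends : ((orb d (lin lam B.1) m).y = -1 ∧ (orb d (lin lam B.2.1) m).y = 1) ∨
    ((orb d (lin lam B.1) m).y = 1 ∧ (orb d (lin lam B.2.1) m).y = -1)
  t3 : B.2.2 = false → ∀ e ∈ seg B, |(orb d (lin lam e) m).z| ≤ 1
  t2 : B.2.2 = true → ∀ e ∈ seg B, 9 / 10 * cc (lam / 2) ≤ |(orb d (lin lam e) m).z| ∧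
    |(orb d (lin lam e) m).z| ≤ 11 / 10 * cc (lam / 2) ∧
    |2 * (orb d (lin lam e) m).y * (orb d (lin lam e) m).z - (orb d (lin lam e) m).x| ≤ 1

/-- the size of the coupling -/
def Big (lam : ℝ) : Prop := 10 ^ 8 ≤ lam

/-- (DIS) on a node the function `y_m` is almost affine and clusters are intervals -/
def TDis : Prop := ∀ (lam : ℝ) (d : ℕ → ℕ) (m : ℕ) (B : Nod), Big lam → (∀ k, 1 ≤ d k) →
  IsNode lam d m B →
  (∀ x ∈ seg B, ∀ x' ∈ seg B,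
    |x - x'| ≤ (1 + 1 / 10 ^ 5) * (|(orb d (lin lam x) m).y - (orb d (lin lam x') m).y| / 2 * len B) ∧
    |(orb d (lin lam x) m).y - (orb d (lin lam x') m).y| / 2 * len B ≤
      (1 + 1 / 10 ^ 5) * |x - x'|) ∧
  (∀ q h : ℝ, 0 < h → |q| + h < 1 → ∃ a b, B.1 < a ∧ a < b ∧ b < B.2.1 ∧
    (∀ e ∈ seg B, (e ∈ Icc a b ↔ |(orb d (lin lam e) m).y - q| ≤ h)) ∧
    (((orb d (lin lam a) m).y = q - h ∧ (orb d (lin lam b) m).y = q + h) ∨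
      ((orb d (lin lam a) m).y = q + h ∧ (orb d (lin lam b) m).y = q - h)))

/-- (BAND) a level function which changes sign and stays below `c` has exactly one band -/
def TBand : Prop := ∀ (lam : ℝ) (d : ℕ → ℕ) (m : ℕ) (a b : ℝ), 0 < lam → (∀ k, 1 ≤ d k) → a < b →
  (∀ e ∈ Icc a b, |(orb d (lin lam e) m).y| < cc (lam / 2)) →
  ∀ κ : ℝ, 0 < κ →
  ((orb d (lin lam a) m).y < -κ ∧ κ < (orb d (lin lam b) m).y ∨
    κ < (orb d (lin lam a) m).y ∧ (orb d (lin lam b) m).y < -κ) →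
  ∃ u v, a < u ∧ u < v ∧ v < b ∧
    (∀ e ∈ Icc a b, (e ∈ Icc u v ↔ |(orb d (lin lam e) m).y| ≤ κ)) ∧
    (((orb d (lin lam u) m).y = -κ ∧ (orb d (lin lam v) m).y = κ) ∨
      ((orb d (lin lam u) m).y = κ ∧ (orb d (lin lam v) m).y = -κ))

/-- (B2) the node of type `true` near a zero of `x_j` -/
def TB2 : Prop := ∀ (lam : ℝ) (d : ℕ → ℕ) (j : ℕ) (a b : ℝ), Big lam → (∀ k, 1 ≤ d k) →
  d j = 3 → a < b →
  (∀ e ∈ Icc a b, |(orb d (lin lam e) j).z| ≤ 1 ∧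
    4 / 5 * cc (lam / 2) ≤ |(orb d (lin lam e) j).y| ∧
    |(orb d (lin lam e) j).y| ≤ 6 / 5 * cc (lam / 2) ∧
    |(orb d (lin lam e) j).x| < cc (lam / 2)) →
  ((orb d (lin lam a) j).x < -(1 / 4) ∧ 1 / 4 < (orb d (lin lam b) j).x ∨
    1 / 4 < (orb d (lin lam a) j).x ∧ (orb d (lin lam b) j).x < -(1 / 4)) →
  ∃ u v, a < u ∧ u < v ∧ v < b ∧ IsNode lam d (j + 1) (u, v, true) ∧
    ∀ e ∈ Icc a b, |(orb d (lin lam e) (j + 1)).y| ≤ 1 → e ∈ Icc u v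

/-- (SQ) the squeeze estimate -/
def TSq : Prop := ∀ (δ : ℝ) (p : P3), 10 ^ 7 ≤ δ → OnS δ p → |p.z| ≤ 1 → 1 < |p.y| →
  |(stepR^[3] p).z| ≤ 1 →
  |p.x| ≤ 1 / 10 ^ 6 ∧ |(stepR^[2] p).z| ≤ 1 / 10 ^ 6 ∧ |p.y ^ 2 - cc δ ^ 2| ≤ 1

/-- (KA) the child of type `false` in a cluster -/
def TKA : Prop := ∀ (lam : ℝ) (d : ℕ → ℕ) (m : ℕ) (B : Nod) (q : ℝ), Big lam → (∀ k, 1 ≤ d k) →
  IsNode lam d m B → |q| + 1 / 2000 < 1 →
  (∀ e ∈ seg B, |(orb d (lin lam e) m).y - q| ≤ 1 / 2000 →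
    |(orb d (lin lam e) (m + 1)).y| < cc (lam / 2)) →
  (∀ e ∈ seg B, ∀ e' ∈ seg B, (orb d (lin lam e) m).y = q - 1 / 2000 →
    (orb d (lin lam e') m).y = q + 1 / 2000 →
    ((orb d (lin lam e) (m + 1)).y < -1 ∧ 1 < (orb d (lin lam e') (m + 1)).y) ∨
      (1 < (orb d (lin lam e) (m + 1)).y ∧ (orb d (lin lam e') (m + 1)).y < -1)) →
  ∃ C : Nod, C.2.2 = false ∧ IsNode lam d (m + 1) C ∧ seg C ⊆ seg B ∧
    (∀ e ∈ seg C, |(orb d (lin lam e) m).y - q| ≤ 1 / 2000) ∧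
    ∀ e ∈ seg B, |(orb d (lin lam e) m).y - q| ≤ 1 / 2000 →
      |(orb d (lin lam e) (m + 1)).y| ≤ 1 → e ∈ seg C

/-- (KB) the child of type `true` in a cluster -/
def TKB : Prop := ∀ (lam : ℝ) (d : ℕ → ℕ) (m : ℕ) (B : Nod) (q : ℝ), Big lam → (∀ k, 1 ≤ d k) →
  d (m + 1) = 3 → IsNode lam d m B → |q| + 1 / 2000 < 1 →
  (∀ e ∈ seg B, |(orb d (lin lam e) m).y - q| ≤ 1 / 2000 →
    4 / 5 * cc (lam / 2) ≤ |(orb d (lin lam e) (m + 1)).y| ∧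
    |(orb d (lin lam e) (m + 1)).y| ≤ 6 / 5 * cc (lam / 2) ∧
    |(orb d (lin lam e) (m + 1)).x| < cc (lam / 2)) →
  (∀ e ∈ seg B, ∀ e' ∈ seg B, (orb d (lin lam e) m).y = q - 1 / 2000 →
    (orb d (lin lam e') m).y = q + 1 / 2000 →
    ((orb d (lin lam e) (m + 1)).x < -(1 / 4) ∧ 1 / 4 < (orb d (lin lam e') (m + 1)).x) ∨
      (1 / 4 < (orb d (lin lam e) (m + 1)).x ∧ (orb d (lin lam e') (m + 1)).x < -(1 / 4))) →
  ∃ C : Nod, C.2.2 = true ∧ IsNode lam d (m + 2) C ∧ seg C ⊆ seg B ∧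
    (∀ e ∈ seg C, |(orb d (lin lam e) m).y - q| ≤ 1 / 2000) ∧
    ∀ e ∈ seg B, |(orb d (lin lam e) m).y - q| ≤ 1 / 2000 →
      |(orb d (lin lam e) (m + 2)).y| ≤ 1 → e ∈ seg C

/-- (KC) families of children -/
def TKC : Prop := ∀ (lam : ℝ) (d : ℕ → ℕ) (m : ℕ) (B : Nod) (N : ℕ) (q : Fin N → ℝ)
  (C : Fin N → ℕ × Nod), Big lam → (∀ k, 1 ≤ d k) → IsNode lam d m B →
  (∀ i j, i ≠ j → 101 / 1000 ≤ |q i - q j|) →
  (∀ i, m < (C i).1 ∧ IsNode lam d (C i).1 (C i).2 ∧ seg (C i).2 ⊆ seg B ∧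
    ∀ e ∈ seg (C i).2, |(orb d (lin lam e) m).y - q i| ≤ 1 / 2000) →
  (∀ x ∈ Sp lam d, x ∈ seg B → ∃ i, x ∈ seg (C i).2) →
  (Finset.univ.filter (fun i => (C i).2.2.2 = true)).card = (if B.2.2 = true then 4 else 3) →
  (Finset.univ.filter (fun i => (C i).2.2.2 = false)).card = (if B.2.2 = true then 3 else 2) →
  ∃ K : Finset (ℕ × Nod), Kids (Sp lam d) (IsNode lam d) m B K

/-- (CH2) the children of a node of type `true` -/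
def TCH2 : Prop := ∀ (lam : ℝ) (d : ℕ → ℕ) (m : ℕ) (u v : ℝ), Big lam → (∀ k, 1 ≤ d k) →
  d m = 3 → d (m + 1) = 3 → IsNode lam d m (u, v, true) →
  ∃ K : Finset (ℕ × Nod), Kids (Sp lam d) (IsNode lam d) m (u, v, true) K

/-- (CH3) the children of a node of type `false` -/
def TCH3 : Prop := ∀ (lam : ℝ) (d : ℕ → ℕ) (m : ℕ) (u v : ℝ), Big lam → (∀ k, 1 ≤ d k) →
  d m = 3 → d (m + 1) = 3 → IsNode lam d m (u, v, false) →
  ∃ K : Finset (ℕ × Nod), Kids (Sp lam d) (IsNode lam d) m (u, v, false) K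

/-- the digits of `(√13-3)/2` -/
def dA : ℕ → ℕ := fun _ => 3
/-- the digits of `1/(1+(√13-3)/2)` -/
def dB : ℕ → ℕ := fun k => if k = 0 then 1 else 3

/-- top nodes -/
structure Top (lam : ℝ) (d : ℕ → ℕ) (m0 : ℕ) (K0 : Finset (ℕ × Nod)) (N : ℕ) : Prop where
  nd : ∀ C ∈ K0, m0 ≤ C.1 ∧ IsNode lam d C.1 C.2
  disj : ∀ C ∈ K0, ∀ C' ∈ K0, C ≠ C' → Disjoint (seg C.2) (seg C'.2)
  cover : ∀ x ∈ Sp lam d, ∃ C ∈ K0, x ∈ seg C.2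
  card : (K0.filter (fun C => C.2.2.2 = true)).card = N

/-- (TOP) the top nodes -/
def TTop : Prop := ∀ lam : ℝ, Big lam → (∃ K0, Top lam dA 0 K0 1) ∧ (∃ K0, Top lam dB 1 K0 2)

/-- (NE) nodes meet the spectrum -/
def TNE : Prop := ∀ (lam : ℝ) (d : ℕ → ℕ) (Nd : ℕ → Nod → Prop), 0 < lam → (∀ k, 1 ≤ d k) →
  (∀ m B, Nd m B → B.1 < B.2.1 ∧ ∀ e ∈ seg B, |(orb d (lin lam e) m).y| ≤ 1) →
  (∀ m B, Nd m B → ∃ m' B', m < m' ∧ Nd m' B' ∧ seg B' ⊆ seg B) →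
  ∀ m B, Nd m B → ∃ x ∈ Sp lam d, x ∈ seg B

/-- the conclusion of the concrete part -/
def TSys : Prop := ∀ lam : ℝ, Big lam → (∃ P, Sys (Sp lam dA) P ∧ cnt (P 0) = 1) ∧
  (∃ P, Sys (Sp lam dB) P ∧ cnt (P 0) = 2)

/-- the two frequencies -/
noncomputable def fA : ℝ := (Real.sqrt 13 - 3) / 2
noncomputable def fB : ℝ := (1 + fA)⁻¹

/-- (DIG) digits of the two frequencies -/
def TDg : Prop := Irrational fA ∧ Irrational fB ∧ 0 < fA ∧ fA < 1 ∧ 0 < fB ∧ fB < 1 ∧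
  Int.fract fB⁻¹ = fA ∧ dig fA = dA ∧ dig fB = dB ∧
  ∀ i : ℕ, Stream'.Seq.get? (GenContFract.of fB).partDens (i + 1)
          = Stream'.Seq.get? (GenContFract.of fA).partDens (i + 0)

/-- (SOL) the spectrum in terms of solvability -/
def TSol : Prop := ∀ (lam γ E : ℝ) (T : lp (fun _ : ℤ => ℂ) 2 →L[ℂ] lp (fun _ : ℤ => ℂ) 2),
  0 < γ → γ < 1 → IsSturm lam γ T →
  (((E : ℂ) ∈ spectrum ℂ T) ↔ ¬ (∀ u : ℤ → ℂ, Memℓp u 2 →
            ∃! v : ℤ → ℂ, Memℓp v 2 ∧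
              ∀ n : ℤ, v (n + 1) + v (n - 1)
                + (((lam * (if 1 - γ ≤ Int.fract ((n : ℝ) * γ) then (1 : ℝ) else 0) - E : ℝ)) : ℂ) * v n
                = u n))

end Pool.Agent.W811.Nd
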